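import Pool.Agent.Helper68.LM.St

set_option autoImplicit false

open MeasureTheory Set Filter Topology
open scoped ENNReal

namespace Pool.Agent.Helper65.LM

open Pool.Agent.Helper68.LM

/-- the sum over the scales -/
theorem scale_sum (R C1 : ℝ) (_hR : 0 < R) (hC1 : 0 < C1) : ∃ C : ℝ, 0 < C ∧ ∀ (a : ℕ) (r : ℝ),
    0 < r → ∑' k : ℤ, (if (2 : ℝ) ^ k * (R + 1) ≤ r then 0 else
      ENNReal.ofReal (min 2 (C1 * r / (2 : ℝ) ^ (k - (a : ℤ))))) ≤ ENNReal.ofReal (C * (a + 1)) := by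
  obtain ⟨P, hP⟩ : ∃ P : ℕ, R + 1 ≤ (2 : ℝ) ^ P := by
    obtain ⟨P, hP⟩ := pow_unbounded_of_one_lt (R + 1) (one_lt_two : (1 : ℝ) < 2)
    exact ⟨P, hP.le⟩
  refine ⟨2 * P + 2 + 4 * C1, by positivity, fun a r hr => ?_⟩
  obtain ⟨m, hm1, hm2⟩ := exists_mem_Ico_zpow (y := (2 : ℝ)) hr one_lt_two
  set F : ℤ → ℝ≥0∞ := fun k => if (2 : ℝ) ^ k * (R + 1) ≤ r then 0 else
      ENNReal.ofReal (min 2 (C1 * r / (2 : ℝ) ^ (k - (a : ℤ)))) with hF
  have hinj : Function.Injective (fun i : ℕ => m - (P : ℤ) + (i : ℤ)) := by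
    intro i j hij
    simpa using hij
  have hsupp : Function.support F ⊆ Set.range (fun i : ℕ => m - (P : ℤ) + (i : ℤ)) := by
    intro k hk
    have h1 : ¬ ((2 : ℝ) ^ k * (R + 1) ≤ r) := by
      intro h
      apply hk
      simp only [hF, if_pos h]
    push Not at h1
    have h2 : (2 : ℝ) ^ m < (2 : ℝ) ^ (k + P) := by
      rw [zpow_add₀ (by norm_num : (2 : ℝ) ≠ 0), zpow_natCast]
      calc (2 : ℝ) ^ m ≤ r := hm1
        _ < (2 : ℝ) ^ k * (R + 1) := h1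
        _ ≤ (2 : ℝ) ^ k * 2 ^ P := mul_le_mul_of_nonneg_left hP (by positivity)
    have h3 : m < k + P := (zpow_lt_zpow_iff_right₀ (one_lt_two : (1 : ℝ) < 2)).1 h2
    refine ⟨(k - m + P).toNat, ?_⟩
    simp only []
    rw [Int.toNat_of_nonneg (by linarith)]
    ring
  have h0 := hinj.tsum_eq hsupp
  rw [← h0]
  have h1 := (ENNReal.summable (f := fun i : ℕ => F (m - (P : ℤ) + ((i + (a + P) : ℕ) : ℤ)))).sum_add_tsum_nat_add'
    (f := fun i : ℕ => F (m - (P : ℤ) + (i : ℤ))) (k := a + P)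
  rw [← h1]
  have hle2 : ∀ k, F k ≤ ENNReal.ofReal 2 := by
    intro k
    simp only [hF]
    split_ifs
    · exact zero_le
    · exact ENNReal.ofReal_le_ofReal (min_le_left _ _)
  have e1 : ∑ i ∈ Finset.range (a + P), F (m - (P : ℤ) + (i : ℤ)) ≤
      ENNReal.ofReal (2 * (a + P)) := by
    refine (Finset.sum_le_card_nsmul _ _ (ENNReal.ofReal 2) fun i _ => hle2 _).trans ?_
    rw [Finset.card_range, nsmul_eq_mul, mul_comm (2 : ℝ), ENNReal.ofReal_mul (by positivity)]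
    refine mul_le_mul_left ?_ _
    rw [show ((a : ℝ) + P) = ((a + P : ℕ) : ℝ) by push_cast; ring, ENNReal.ofReal_natCast]
  have e2 : ∑' i : ℕ, F (m - (P : ℤ) + ((i + (a + P) : ℕ) : ℤ)) ≤ ENNReal.ofReal (4 * C1) := by
    have h2 : ∀ i : ℕ, F (m - (P : ℤ) + ((i + (a + P) : ℕ) : ℤ)) ≤
        ENNReal.ofReal (2 * C1 * (1 / 2) ^ i) := by
      intro i
      simp only [hF]
      split_ifs
      · exact zero_le
      · refine ENNReal.ofReal_le_ofReal ((min_le_right _ _).trans ?_)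
        have e3 : m - (P : ℤ) + ((i + (a + P) : ℕ) : ℤ) - (a : ℤ) = m + i := by
          push_cast
          ring
        rw [e3, div_le_iff₀ (by positivity)]
        have e4 : 2 * C1 * (1 / 2) ^ i * (2 : ℝ) ^ (m + (i : ℤ)) = C1 * (2 : ℝ) ^ (m + 1) := by
          rw [zpow_add₀ (by norm_num : (2 : ℝ) ≠ 0), zpow_add₀ (by norm_num : (2 : ℝ) ≠ 0),
            zpow_natCast, zpow_one, one_div, inv_pow]
          field_simp
        rw [e4]
        exact mul_le_mul_of_nonneg_left hm2.le hC1.le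
    refine (ENNReal.tsum_le_tsum h2).trans ?_
    have hs : HasSum (fun i : ℕ => 2 * C1 * (1 / 2 : ℝ) ^ i) (2 * C1 * 2) :=
      hasSum_geometric_two.mul_left (2 * C1)
    rw [← ENNReal.ofReal_tsum_of_nonneg (fun i => by positivity) hs.summable, hs.tsum_eq]
    exact ENNReal.ofReal_le_ofReal (by linarith)
  refine (add_le_add e1 e2).trans ?_
  rw [← ENNReal.ofReal_add (by positivity) (by positivity)]
  refine ENNReal.ofReal_le_ofReal ?_
  have ha : (0 : ℝ) ≤ a := by positivity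
  have hP0 : (0 : ℝ) ≤ P := by positivity
  nlinarith [mul_nonneg ha hP0, mul_nonneg ha hC1.le]

theorem hHO (hBBC : StBBC) (hHO1 : StHO1) : StHO := by
  intro R hR
  obtain ⟨C1, hC1, hb⟩ := hHO1 R hR
  obtain ⟨C, hC, hsum⟩ := scale_sum R C1 hR hC1
  refine ⟨2 * C, by positivity, ?_⟩
  intro ν L hν hL g c r a b hg hr hba hsupp hmean
  obtain ⟨b1, b2, b3, b4, b5, b6, b7⟩ := hBBC
  set G : ℝ≥0∞ := ∫⁻ x, ‖g x‖ₑ with hG
  -- one scale
  have one : ∀ (e : ℕ) (k : ℤ), ∫⁻ x in (Metric.closedBall c (2 * r))ᶜ,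
      ‖Av ν ((2 : ℝ) ^ k) (Sm ((2 : ℝ) ^ (k - (e : ℤ))) g) x‖ₑ ≤
      ENNReal.ofReal L * (if (2 : ℝ) ^ k * (R + 1) ≤ r then 0 else
        ENNReal.ofReal (min 2 (C1 * r / (2 : ℝ) ^ (k - (e : ℤ))))) * G := by
    intro e k
    have h1 := hb ν L hν hL g c r ((2 : ℝ) ^ (k - (e : ℤ))) ((2 : ℝ) ^ k) hg hr (by positivity)
      (zpow_le_zpow_right₀ one_le_two (by omega)) hsupp hmean
    refine h1.trans (le_of_eq ?_)
    congr 1
    split_ifs
    · rw [mul_zero]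
    · rw [← ENNReal.ofReal_mul hL.le]
  have two : ∀ k : ℤ, ∫⁻ x in (Metric.closedBall c (2 * r))ᶜ, ‖Dk ν a b k g x‖ₑ ≤
      ENNReal.ofReal L * (if (2 : ℝ) ^ k * (R + 1) ≤ r then 0 else
        ENNReal.ofReal (min 2 (C1 * r / (2 : ℝ) ^ (k - (a : ℤ))))) * G +
      ENNReal.ofReal L * (if (2 : ℝ) ^ k * (R + 1) ≤ r then 0 else
        ENNReal.ofReal (min 2 (C1 * r / (2 : ℝ) ^ (k - (b : ℤ))))) * G := by
    intro k
    have hA := b2 g ((2 : ℝ) ^ (k - (a : ℤ))) hg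
    have hB := b2 g ((2 : ℝ) ^ (k - (b : ℤ))) hg
    have hD : ∀ x, Dk ν a b k g x = Av ν ((2 : ℝ) ^ k) (Sm ((2 : ℝ) ^ (k - (a : ℤ))) g) x -
        Av ν ((2 : ℝ) ^ k) (Sm ((2 : ℝ) ^ (k - (b : ℤ))) g) x := by
      intro x
      have h1 := b7 ν R L ((2 : ℝ) ^ k)
        (fun x => Sm ((2 : ℝ) ^ (k - (a : ℤ))) g x - Sm ((2 : ℝ) ^ (k - (b : ℤ))) g x)
        (Sm ((2 : ℝ) ^ (k - (b : ℤ))) g) x hν (b1 _ _ hA hB) hB
      simp only [sub_add_cancel] at h1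
      unfold Dk
      linarith
    have hm : Measurable (Av ν ((2 : ℝ) ^ k) (Sm ((2 : ℝ) ^ (k - (a : ℤ))) g)) :=
      (b3 ν R L ((2 : ℝ) ^ k) _ hν (by positivity) hA).1
    calc ∫⁻ x in (Metric.closedBall c (2 * r))ᶜ, ‖Dk ν a b k g x‖ₑ
        ≤ ∫⁻ x in (Metric.closedBall c (2 * r))ᶜ,
          (‖Av ν ((2 : ℝ) ^ k) (Sm ((2 : ℝ) ^ (k - (a : ℤ))) g) x‖ₑ +
            ‖Av ν ((2 : ℝ) ^ k) (Sm ((2 : ℝ) ^ (k - (b : ℤ))) g) x‖ₑ) := by
          refine lintegral_mono fun x => ?_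
          rw [hD]
          exact enorm_sub_le
      _ = _ := lintegral_add_left hm.enorm _
      _ ≤ _ := add_le_add (one a k) (one b k)
  refine (ENNReal.tsum_le_tsum two).trans ?_
  rw [ENNReal.tsum_add, ENNReal.tsum_mul_right, ENNReal.tsum_mul_right, ENNReal.tsum_mul_left,
    ENNReal.tsum_mul_left, ← add_mul, ← mul_add]
  refine mul_le_mul_left ?_ _
  have hb' : (b : ℝ) ≤ a := by exact_mod_cast hba
  have h3 := hsum a r hr
  have h4 : ENNReal.ofReal (C * (b + 1)) ≤ ENNReal.ofReal (C * (a + 1)) :=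
    ENNReal.ofReal_le_ofReal (mul_le_mul_of_nonneg_left (by linarith) hC.le)
  have h5 := (hsum b r hr).trans h4
  calc ENNReal.ofReal L * _ ≤ ENNReal.ofReal L *
        (ENNReal.ofReal (C * (a + 1)) + ENNReal.ofReal (C * (a + 1))) :=
        mul_le_mul_right (add_le_add h3 h5) _
    _ = ENNReal.ofReal (2 * C * L * (a + 1)) := by
      rw [← ENNReal.ofReal_add (by positivity) (by positivity), ← ENNReal.ofReal_mul hL.le]
      congr 1
      ring

end Pool.Agent.Helper65.LM
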